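import Mathlib

set_option autoImplicit false
open Finset

namespace Pool.Agent.Results.MP_c45f9b_nt.DelannoyFourthPowers

/-- The Delannoy polynomial `D_n(x) = ∑_{k=0}^{n} C(n,k) C(n+k,k) x^k`, evaluated at an integer `x`. -/
def D (n : ℕ) (x : ℤ) : ℤ := ∑ k ∈ range (n+1), (n.choose k : ℤ) * ((n+k).choose k : ℤ) * x^k

/-- The sum `S_p(x) = ∑_{k=0}^{p-1} (-1)^k (2k+1) D_k(x)^4`. -/
def S (p : ℕ) (x : ℤ) : ℤ := ∑ k ∈ range p, (-1)^k * (2*(k : ℤ)+1) * D k x ^ 4

/-- The sum `T_p(x) = ∑_{k=0}^{(p-1)/2} (-1)^k C(2k,k)^2 (x^2+x)^k (2x+1)^(2k)`. -/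
def T (p : ℕ) (x : ℤ) : ℤ :=
  ∑ k ∈ range ((p-1)/2+1), (-1)^k * ((2*k).choose k : ℤ)^2 * (x^2+x)^k * (2*x+1)^(2*k)

/-! ### Elementary relations between binomial coefficients -/

lemma ch_right (n k : ℕ) : ((k : ℤ) + 1) * (n.choose (k+1) : ℤ) = ((n : ℤ) - k) * (n.choose k : ℤ) := by
  rcases le_or_gt k n with h | h
  · have := Nat.choose_succ_right_eq n k
    have h2 : ((n.choose (k+1) * (k+1) : ℕ) : ℤ) = ((n.choose k * (n-k) : ℕ) : ℤ) := by rw [this]
    push_cast [Nat.cast_sub h] at h2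
    linarith
  · rw [Nat.choose_eq_zero_of_lt h, Nat.choose_eq_zero_of_lt (by omega)]
    simp

lemma ch_up (n k : ℕ) : ((n : ℤ) + 1) * (n.choose k : ℤ) = ((n : ℤ) + 1 - k) * ((n+1).choose k : ℤ) := by
  rcases le_or_gt k (n+1) with h | h
  · have := Nat.choose_mul_succ_eq n k
    have h2 : ((n.choose k * (n+1) : ℕ) : ℤ) = (((n+1).choose k * (n+1-k) : ℕ) : ℤ) := by rw [this]
    push_cast [Nat.cast_sub h] at h2
    linarith
  · rw [Nat.choose_eq_zero_of_lt h, Nat.choose_eq_zero_of_lt (by omega)]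
    simp

lemma ch_diag (n k : ℕ) : ((k : ℤ) + 1) * ((n+1).choose (k+1) : ℤ) = ((n : ℤ) + 1) * (n.choose k : ℤ) := by
  have := Nat.add_one_mul_choose_eq n k
  have h2 : (((n+1) * n.choose k : ℕ) : ℤ) = (((n+1).choose (k+1) * (k+1) : ℕ) : ℤ) := by rw [this]
  push_cast at h2
  linarith

lemma ch_pascal (n k : ℕ) : ((n+1).choose (k+1) : ℤ) = (n.choose k : ℤ) + (n.choose (k+1) : ℤ) := by
  rw [Nat.choose_succ_succ]; push_cast; ring

/-- `C(n,m) C(n+m,m)` as an integer. -/
def f (n m : ℕ) : ℤ := (n.choose m : ℤ) * ((n+m).choose m : ℤ)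

lemma f_zero (n : ℕ) : f n 0 = 1 := by simp [f]

lemma f_big {n m : ℕ} (h : n < m) : f n m = 0 := by simp [f, Nat.choose_eq_zero_of_lt h]

lemma f_succ (n m : ℕ) : ((m : ℤ)+1)^2 * f n (m+1) = ((n : ℤ) - m) * (n + m + 1) * f n m := by
  unfold f
  have h1 := ch_right n m
  have h2 := ch_diag (n+m) m
  push_cast at h2
  have e : n + (m+1) = n + m + 1 := by ring
  rw [e]
  calc ((m : ℤ)+1)^2 * ((n.choose (m+1) : ℤ) * ((n+m+1).choose (m+1) : ℤ)) 
      = (((m : ℤ)+1) * (n.choose (m+1) : ℤ)) * (((m : ℤ)+1) * ((n+m+1).choose (m+1) : ℤ)) := by ring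
    _ = _ := by rw [h1, h2]; ring

/-- the connection coefficients -/
def d (k j m : ℕ) : ℤ := (m.choose k : ℤ) * (m.choose j : ℤ) * ((k+j).choose m : ℤ)

lemma d_rec (k j m : ℕ) : ((k : ℤ)+1)^2 * d (k+1) j (m+1) =
    ((m : ℤ)+1)^2 * d k j m + (((m : ℤ)+1) - k) * ((m+1) + k + 1) * d k j (m+1) := by
  unfold d
  have h1 := ch_right (m+1) k
  have h2 := ch_up m k
  have h3 := ch_up m j
  have h4 : (((k+1)+j).choose (m+1) : ℤ) = ((k+j).choose m : ℤ) + ((k+j).choose (m+1) : ℤ) := by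
    have : (k+1)+j = (k+j)+1 := by ring
    rw [this]; exact ch_pascal _ _
  have h5 := ch_right (k+j) m
  rw [h4]
  push_cast at h1 h5
  calc ((k : ℤ)+1)^2 * (((m+1).choose (k+1) : ℤ) * ((m+1).choose j : ℤ) * (((k+j).choose m : ℤ) + ((k+j).choose (m+1) : ℤ)))
      = ((k : ℤ)+1) * (((k : ℤ)+1) * ((m+1).choose (k+1) : ℤ)) * ((m+1).choose j : ℤ) * (((k+j).choose m : ℤ) + ((k+j).choose (m+1) : ℤ)) := by ring
    _ = ((k : ℤ)+1) * (((m : ℤ)+1-k) * ((m+1).choose k : ℤ)) * ((m+1).choose j : ℤ) * (((k+j).choose m : ℤ) + ((k+j).choose (m+1) : ℤ)) := by rw [h1]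
    _ = (((m : ℤ) + 1 - k) * ((m+1).choose k : ℤ)) * (((m : ℤ) + 1 - j) * ((m+1).choose j : ℤ)) * ((k+j).choose m : ℤ)
        + (((m : ℤ)+1) - k) * ((m+1) + k + 1) * (((m+1).choose k : ℤ) * ((m+1).choose j : ℤ) * ((k+j).choose (m+1) : ℤ))
        + (((m : ℤ)+1) - k) * ((m+1).choose k : ℤ) * ((m+1).choose j : ℤ) * 
          ((k + j - m) * ((k+j).choose m : ℤ) - (m+1) * ((k+j).choose (m+1) : ℤ)) := by ring
    _ = (((m : ℤ) + 1) * (m.choose k : ℤ)) * (((m : ℤ) + 1) * (m.choose j : ℤ)) * ((k+j).choose m : ℤ)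
        + (((m : ℤ)+1) - k) * ((m+1) + k + 1) * (((m+1).choose k : ℤ) * ((m+1).choose j : ℤ) * ((k+j).choose (m+1) : ℤ)) := by 
          rw [← h2, ← h3, h5]; ring
    _ = _ := by ring

lemma d_rec0 (k j : ℕ) : ((k : ℤ)+1)^2 * d (k+1) j 0 = ((0 : ℤ) - k) * (0 + k + 1) * d k j 0 := by
  unfold d
  rcases Nat.eq_zero_or_pos k with h | h
  · subst h; simp
  · simp [Nat.choose_eq_zero_of_lt h]

lemma prod_formula (n : ℕ) (k j : ℕ) : f n k * f n j = ∑ m ∈ range (n+1), d k j m * f n m := by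
  induction k with
  | zero =>
    rw [f_zero, one_mul]
    rcases le_or_gt j n with h | h
    · rw [Finset.sum_eq_single j]
      · simp [d]
      · intro b hb hbj
        rcases lt_or_gt_of_ne hbj with h1 | h1
        · simp [d, Nat.choose_eq_zero_of_lt h1]
        · have : (0 + j).choose b = 0 := Nat.choose_eq_zero_of_lt (by omega)
          simp only [d, this]; simp
      · intro h1; exfalso; apply h1; simp; omega
    · rw [f_big h]
      symm
      apply Finset.sum_eq_zero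
      intro m hm
      simp only [mem_range] at hm
      have : m.choose j = 0 := Nat.choose_eq_zero_of_lt (by omega)
      simp [d, this]
  | succ k ih =>
    have hk : ((k : ℤ)+1)^2 ≠ 0 := by positivity
    apply mul_left_cancel₀ hk
    have h1 : ((k : ℤ)+1)^2 * (f n (k+1) * f n j) = ((n : ℤ) - k) * (n + k + 1) * (f n k * f n j) := by
      rw [← mul_assoc, f_succ]; ring
    rw [h1, ih, Finset.mul_sum, Finset.mul_sum]
    have h2 : ∀ m ∈ range (n+1), ((n : ℤ) - k) * (n + k + 1) * (d k j m * f n m) = 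
        d k j m * (((m : ℤ)+1)^2 * f n (m+1)) + ((m : ℤ) - k) * (m + k + 1) * d k j m * f n m := by
      intro m hm
      rw [f_succ]; ring
    rw [Finset.sum_congr rfl h2, Finset.sum_add_distrib]
    rw [Finset.sum_range_succ (fun m => d k j m * (((m : ℤ)+1)^2 * f n (m+1)))]
    rw [f_big (Nat.lt_succ_self n)]
    rw [Finset.sum_range_succ' (fun m => ((m : ℤ) - k) * (m + k + 1) * d k j m * f n m)]
    rw [Finset.sum_range_succ' (fun i => ((k : ℤ)+1)^2 * (d (k+1) j i * f n i))]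
    have h3 : ∀ m ∈ range n, ((k : ℤ)+1)^2 * (d (k+1) j (m+1) * f n (m+1)) = 
        d k j m * (((m : ℤ)+1)^2 * f n (m+1)) + (((m+1 : ℕ) : ℤ) - k) * ((m+1 : ℕ) + k + 1) * d k j (m+1) * f n (m+1) := by
      intro m hm
      have := d_rec k j m
      rw [← mul_assoc, this]; push_cast; ring
    rw [Finset.sum_congr rfl h3, Finset.sum_add_distrib]
    have h4 := d_rec0 k j
    push_cast
    have h5 : ((k:ℤ) + 1) ^ 2 * (d (k + 1) j 0 * f n 0) = (0 - (k:ℤ)) * (0 + (k:ℤ) + 1) * d k j 0 * f n 0 := by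
      rw [← mul_assoc, h4]
    rw [h5]
    ring

/-- alternating partial sums -/
lemma alt_sum (M m : ℕ) : ∑ n ∈ range (M+1), (-1 : ℤ)^n * (2*n+1) * f n m = 
    (-1)^M * (M+1) * (M.choose m : ℤ) * ((M+1+m).choose m : ℤ) := by
  induction M with
  | zero => 
    rcases Nat.eq_zero_or_pos m with h | h
    · subst h; simp [f]
    · simp [f, Nat.choose_eq_zero_of_lt h]
  | succ M ih =>
    rw [Finset.sum_range_succ, ih]
    have h1 := ch_up M m
    have h2 := ch_up (M+1+m) m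
    have e : M + 1 + 1 + m = M + 1 + m + 1 := by ring
    rw [e]
    unfold f
    push_cast at h1 h2 ⊢
    have h3 : (((M : ℤ) + 1 + 1) * ((M+1+m+1).choose m : ℤ)) = ((M : ℤ) + 1 + m + 1) * ((M+1+m).choose m : ℤ) := by
      rw [h2]; ring
    calc (-1 : ℤ)^M * (M+1) * (M.choose m : ℤ) * ((M+1+m).choose m : ℤ) + (-1)^(M+1) * (2*((M:ℤ)+1)+1) * (((M+1).choose m : ℤ) * ((M+1+m).choose m : ℤ))
        = (-1 : ℤ)^M * (((M : ℤ)+1) * (M.choose m : ℤ)) * ((M+1+m).choose m : ℤ) + (-1)^(M+1) * (2*((M:ℤ)+1)+1) * (((M+1).choose m : ℤ) * ((M+1+m).choose m : ℤ)) := by ring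
      _ = (-1)^(M+1) * ((M+1).choose m : ℤ) * (((M : ℤ) + 1 + m + 1) * ((M+1+m).choose m : ℤ)) := by rw [h1]; ring
      _ = _ := by rw [← h3]; ring


lemma sum_sq_eq {M : Type*} [AddCommMonoid M] (N : ℕ) (F : ℕ → ℕ → M)
    (h : ∀ k < N, ∀ j < N, N ≤ k + j → F k j = 0) :
    ∑ k ∈ range N, ∑ j ∈ range N, F k j = ∑ r ∈ range N, ∑ k ∈ range (r+1), F k (r-k) := by
  rw [Finset.sum_range_diag_flip]
  apply Finset.sum_congr rfl
  intro k hk
  simp only [mem_range] at hk
  symm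
  apply Finset.sum_subset
  · intro j hj; simp only [mem_range] at hj ⊢; omega
  · intro j hj1 hj2
    simp only [mem_range] at hj1 hj2
    exact h k hk j hj1 (by omega)

/-- `∑_{k,j<P} d(k,j,m) u_k u_j`. -/
def B (u : ℕ → ℤ) (P m : ℕ) : ℤ := ∑ k ∈ range P, ∑ j ∈ range P, d k j m * u k * u j

lemma d_zero_left {k j m : ℕ} (h : m < k) : d k j m = 0 := by
  simp [d, Nat.choose_eq_zero_of_lt h]

lemma d_zero_right {k j m : ℕ} (h : m < j) : d k j m = 0 := by
  simp [d, Nat.choose_eq_zero_of_lt h]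

lemma B_range (u : ℕ → ℤ) (P m : ℕ) (h : m < P) : B u P m = B u (m+1) m := by
  unfold B
  rw [Finset.eventually_constant_sum (N := m+1)]
  · apply Finset.sum_congr rfl
    intro k hk
    rw [Finset.eventually_constant_sum (N := m+1)]
    · intro j hj
      rw [d_zero_right (by omega)]; ring
    · omega
  · intro k hk
    apply Finset.sum_eq_zero
    intro j hj
    rw [d_zero_left (by omega)]; ring
  · omega

lemma sq_sum (u : ℕ → ℤ) (n : ℕ) (P : ℕ) (hP : n < P) : 
    (∑ k ∈ range (n+1), f n k * u k)^2 = ∑ m ∈ range (n+1), f n m * B u P m := by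
  have h1 : (∑ k ∈ range (n+1), f n k * u k)^2 = 
      ∑ k ∈ range (n+1), ∑ j ∈ range (n+1), ∑ m ∈ range (n+1), f n m * (d k j m * u k * u j) := by
    rw [sq, Finset.sum_mul_sum]
    apply Finset.sum_congr rfl
    intro k hk
    apply Finset.sum_congr rfl
    intro j hj
    have : f n k * u k * (f n j * u j) = (f n k * f n j) * (u k * u j) := by ring
    rw [this, prod_formula, Finset.sum_mul]
    apply Finset.sum_congr rfl
    intro m hm
    ring
  rw [h1]
  have h2 : ∀ m ∈ range (n+1), f n m * B u P m = ∑ k ∈ range (n+1), ∑ j ∈ range (n+1), f n m * (d k j m * u k * u j) := by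
    intro m hm
    simp only [mem_range] at hm
    rw [B_range u P m (by omega), ← B_range u (n+1) m (by omega)]
    unfold B
    rw [Finset.mul_sum]
    apply Finset.sum_congr rfl
    intro k hk
    rw [Finset.mul_sum]
  rw [Finset.sum_congr rfl h2]
  have h3 : ∀ k ∈ range (n+1), (∑ j ∈ range (n+1), ∑ m ∈ range (n+1), f n m * (d k j m * u k * u j)) = 
      ∑ m ∈ range (n+1), ∑ j ∈ range (n+1), f n m * (d k j m * u k * u j) := by
    intro k hk
    exact Finset.sum_comm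
  rw [Finset.sum_congr rfl h3]
  exact Finset.sum_comm


lemma D_eq (n : ℕ) (x : ℤ) : D n x = ∑ k ∈ range (n+1), f n k * x^k := rfl

lemma vander (a b r : ℕ) : ∑ k ∈ range (r+1), (a.choose k : ℤ) * (b.choose (r-k) : ℤ) = ((a+b).choose r : ℤ) := by
  rw [Nat.add_choose_eq, Finset.Nat.sum_antidiagonal_eq_sum_range_succ (fun i j => a.choose i * b.choose j)]
  push_cast
  rfl

lemma B_pow (x : ℤ) (m : ℕ) : B (fun k => x^k) (2*m+1) m = ((2*m).choose m : ℤ) * (x*(x+1))^m := by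
  unfold B
  rw [sum_sq_eq]
  · have h1 : ∀ r ∈ range (2*m+1), ∑ k ∈ range (r+1), d k (r-k) m * x^k * x^(r-k) = 
        ((2*m).choose r : ℤ) * (r.choose m : ℤ) * x^r := by
      intro r hr
      have h2 : ∀ k ∈ range (r+1), d k (r-k) m * x^k * x^(r-k) = ((m.choose k : ℤ) * (m.choose (r-k) : ℤ)) * ((r.choose m : ℤ) * x^r) := by
        intro k hk
        simp only [mem_range] at hk
        have e1 : k + (r-k) = r := by omega
        have e2 : x^r = x^k * x^(r-k) := by rw [← pow_add, e1]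
        unfold d
        rw [e2, e1]; ring
      rw [Finset.sum_congr rfl h2, ← Finset.sum_mul, vander]
      have : m + m = 2*m := by ring
      rw [this]; ring
    rw [Finset.sum_congr rfl h1]
    have e : 2*m+1 = m + (m+1) := by ring
    rw [e, Finset.sum_range_add]
    have h3 : ∑ r ∈ range m, ((2*m).choose r : ℤ) * (r.choose m : ℤ) * x^r = 0 := by
      apply Finset.sum_eq_zero
      intro r hr
      simp only [mem_range] at hr
      rw [Nat.choose_eq_zero_of_lt hr]; simp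
    rw [h3, zero_add]
    have h4 : ∀ i ∈ range (m+1), ((2*m).choose (m+i) : ℤ) * ((m+i).choose m : ℤ) * x^(m+i) = 
        ((2*m).choose m : ℤ) * x^m * (x^i * 1^(m-i) * (m.choose i : ℤ)) := by
      intro i hi
      have := Nat.choose_mul (n := 2*m) (k := m+i) (s := m) (by omega)
      have e1 : 2*m - m = m := by omega
      have e2 : m + i - m = i := by omega
      rw [e1, e2] at this
      have h5 : (((2*m).choose (m+i) : ℤ) * ((m+i).choose m : ℤ)) = ((2*m).choose m : ℤ) * (m.choose i : ℤ) := by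
        exact_mod_cast this
      rw [h5, pow_add]; ring
    rw [Finset.sum_congr rfl h4, ← Finset.mul_sum, ← add_pow, mul_pow]
    ring
  · intro k hk j hj hkj
    rcases lt_or_ge m k with h | h
    · rw [d_zero_left h]; ring
    · rw [d_zero_right (by omega)]; ring

lemma D_sq (n : ℕ) (x : ℤ) : D n x ^ 2 = ∑ m ∈ range (n+1), f n m * (((2*m).choose m : ℤ) * (x*(x+1))^m) := by
  rw [D_eq, sq_sum (fun k => x^k) n (n+1) (by omega)]
  apply Finset.sum_congr rfl
  intro m hm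
  simp only [mem_range] at hm
  rw [B_range _ (n+1) m hm, ← B_range _ (2*m+1) m (by omega), B_pow]

/-- `u_k = C(2k,k) y^k`. -/
def cy (y : ℤ) (k : ℕ) : ℤ := ((2*k).choose k : ℤ) * y^k

lemma D_four (n P : ℕ) (hP : n < P) (x : ℤ) : 
    D n x ^ 4 = ∑ m ∈ range P, f n m * B (cy (x*(x+1))) P m := by
  have : D n x ^ 4 = (D n x ^ 2)^2 := by ring
  rw [this, D_sq]
  have h := sq_sum (cy (x*(x+1))) n P hP
  unfold cy at h ⊢
  rw [h]
  symm
  apply Finset.eventually_constant_sum (N := n+1)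
  · intro m hm
    rw [f_big (by omega)]; ring
  · omega


lemma S_eq (p : ℕ) (hp : 0 < p) (hodd : Odd p) (x : ℤ) : 
    S p x = p * ∑ m ∈ range p, B (cy (x*(x+1))) p m * (((p-1).choose m : ℤ) * ((p+m).choose m : ℤ)) := by
  unfold S
  have h1 : ∀ k ∈ range p, (-1)^k * (2*(k : ℤ)+1) * D k x ^ 4 = 
      ∑ m ∈ range p, (-1)^k * (2*(k : ℤ)+1) * (f k m * B (cy (x*(x+1))) p m) := by
    intro k hk
    simp only [mem_range] at hk
    rw [D_four k p hk, Finset.mul_sum]
  rw [Finset.sum_congr rfl h1, Finset.sum_comm, Finset.mul_sum]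
  apply Finset.sum_congr rfl
  intro m hm
  obtain ⟨M, rfl⟩ : ∃ M, p = M + 1 := ⟨p - 1, by omega⟩
  have h2 := alt_sum M m
  have h3 : ∀ n ∈ range (M+1), (-1)^n * (2*(n : ℤ)+1) * (f n m * B (cy (x*(x+1))) (M+1) m) = 
      ((-1)^n * (2*(n : ℤ)+1) * f n m) * B (cy (x*(x+1))) (M+1) m := by
    intro n hn; ring
  rw [Finset.sum_congr rfl h3, ← Finset.sum_mul, h2]
  have h4 : Even M := by
    rcases Nat.even_or_odd M with h | h
    · exact h
    · exfalso
      have : Even (M+1) := Odd.add_one h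
      rw [← Nat.not_odd_iff_even] at this
      exact this hodd
  rw [h4.neg_one_pow]
  simp only [Nat.add_sub_cancel]
  push_cast
  ring


/-! ### The identity for sums of central binomial coefficients -/

/-- central binomial coefficients as integers -/
def c (k : ℕ) : ℤ := ((2*k).choose k : ℤ)

lemma c_succ (k : ℕ) : ((k : ℤ)+1) * c (k+1) = (4*k+2) * c k := by
  have := Nat.succ_mul_centralBinom_succ k
  unfold Nat.centralBinom at this
  unfold c
  have h : (((k+1) * (2*(k+1)).choose (k+1) : ℕ) : ℤ) = ((2*(2*k+1) * (2*k).choose k : ℕ) : ℤ) := by rw [this]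
  push_cast at h
  linarith

lemma c_mul (i j : ℕ) : c i * c j = ∑ s ∈ range (j+1), (-4 : ℤ)^(j-s) * ((i+s).choose j : ℤ) * (j.choose s : ℤ) * c (i+s) := by
  induction j with
  | zero => simp [c]
  | succ j ih =>
    have hj : ((j : ℤ)+1) ≠ 0 := by positivity
    apply mul_left_cancel₀ hj
    have h1 : ((j : ℤ)+1) * (c i * c (j+1)) = (4*j+2) * (c i * c j) := by
      have := c_succ j
      calc ((j : ℤ)+1) * (c i * c (j+1)) = c i * (((j : ℤ)+1) * c (j+1)) := by ring
        _ = _ := by rw [this]; ring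
    rw [h1, ih, Finset.mul_sum, Finset.mul_sum]
    have h2 : ∀ s ∈ range (j+1), (4*(j:ℤ)+2) * ((-4 : ℤ)^(j-s) * ((i+s).choose j : ℤ) * (j.choose s : ℤ) * c (i+s)) = 
        (-4 : ℤ)^(j-s) * (j.choose s : ℤ) * ((j+1) * ((i+s+1).choose (j+1) : ℤ)) * c (i+s+1) + 
        (-4 : ℤ)^(j+1-s) * (j.choose s : ℤ) * ((j+1) * ((i+s).choose (j+1) : ℤ)) * c (i+s) := by
      intro s hs
      simp only [mem_range] at hs
      have e : j + 1 - s = (j - s) + 1 := by omega
      rw [e, pow_succ]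
      have h3 := ch_diag (i+s) j
      have h4 := ch_right (i+s) j
      rw [h3, h4]
      have h5 := c_succ (i+s)
      push_cast at h5 ⊢
      calc (4*(j:ℤ)+2) * ((-4 : ℤ)^(j-s) * ((i+s).choose j : ℤ) * (j.choose s : ℤ) * c (i+s))
          = (-4 : ℤ)^(j-s) * (j.choose s : ℤ) * ((i+s).choose j : ℤ) * ((4 * ((i : ℤ) + s) + 2) * c (i+s)) + 
            (-4 : ℤ)^(j-s) * (-4) * (j.choose s : ℤ) * ((((i : ℤ)+s) - j) * ((i+s).choose j : ℤ)) * c (i+s) := by ring
        _ = _ := by rw [← h5]; ring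
    rw [Finset.sum_congr rfl h2, Finset.sum_add_distrib]
    rw [Finset.sum_range_succ' (fun s => (-4 : ℤ)^(j+1-s) * (j.choose s : ℤ) * ((j+1) * ((i+s).choose (j+1) : ℤ)) * c (i+s)) j]
    rw [Finset.sum_range_succ' (fun s => ((j:ℤ)+1) * ((-4 : ℤ)^(j+1-s) * ((i+s).choose (j+1) : ℤ) * ((j+1).choose s : ℤ) * c (i+s))) (j+1)]
    rw [Finset.sum_range_succ (fun s => ((j:ℤ)+1) * ((-4 : ℤ)^(j+1-(s+1)) * ((i+(s+1)).choose (j+1) : ℤ) * ((j+1).choose (s+1) : ℤ) * c (i+(s+1)))) j]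
    rw [Finset.sum_range_succ (fun s => (-4 : ℤ)^(j-s) * (j.choose s : ℤ) * ((j+1) * ((i+s+1).choose (j+1) : ℤ)) * c (i+s+1)) j]
    have h6 : ∀ s ∈ range j, ((j:ℤ)+1) * ((-4 : ℤ)^(j+1-(s+1)) * ((i+(s+1)).choose (j+1) : ℤ) * ((j+1).choose (s+1) : ℤ) * c (i+(s+1))) = 
        (-4 : ℤ)^(j-s) * (j.choose s : ℤ) * ((j+1) * ((i+s+1).choose (j+1) : ℤ)) * c (i+s+1) + 
        (-4 : ℤ)^(j+1-(s+1)) * (j.choose (s+1) : ℤ) * ((j+1) * ((i+(s+1)).choose (j+1) : ℤ)) * c (i+(s+1)) := by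
      intro s hs
      have e1 : j + 1 - (s+1) = j - s := by omega
      have e2 : i + (s+1) = i + s + 1 := by ring
      rw [e1, e2, ch_pascal j s]; ring
    rw [Finset.sum_congr rfl h6, Finset.sum_add_distrib]
    have e3 : j + 1 - (j+1) = 0 := by omega
    have e4 : i + (j+1) = i + j + 1 := by ring
    simp only [Nat.choose_self, Nat.choose_zero_right, Nat.sub_zero, Nat.sub_self, e3, e4]
    push_cast
    ring

lemma c_mul' (i j : ℕ) : c i * c j = ∑ t ∈ range (j+1), (-4 : ℤ)^t * ((i+j-t).choose j : ℤ) * (j.choose t : ℤ) * c (i+j-t) := by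
  rw [c_mul, ← Finset.sum_range_reflect]
  apply Finset.sum_congr rfl
  intro t ht
  simp only [mem_range] at ht
  have e1 : j + 1 - 1 - t = j - t := by omega
  have e2 : j - (j - t) = t := by omega
  have e3 : i + (j - t) = i + j - t := by omega
  rw [e1, e2, e3, Nat.choose_symm (by omega)]

lemma central_identity (r : ℕ) : 
    ∑ k ∈ range (r+1), (r.choose k : ℤ) * c k * c (r-k) = 
    ∑ k ∈ range (r+1), (-4 : ℤ)^(r-k) * (k.choose (r-k) : ℤ) * c k ^ 2 := by
  have h1 : ∀ j ∈ range (r+1), (r.choose j : ℤ) * c j * c (r-j) = 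
      ∑ t ∈ range (r+1), (-4 : ℤ)^t * c (r-t) * ((r.choose j : ℤ) * (j.choose t : ℤ) * ((r-t).choose j : ℤ)) := by
    intro j hj
    simp only [mem_range] at hj
    have h2 : (r.choose j : ℤ) * c j * c (r-j) = (r.choose j : ℤ) * (c (r-j) * c j) := by ring
    rw [h2, c_mul', Finset.mul_sum]
    symm
    rw [Finset.eventually_constant_sum (N := j+1)]
    · apply Finset.sum_congr rfl
      intro t ht
      have e : r - j + j - t = r - t := by omega
      rw [e]; ring
    · intro t ht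
      rw [Nat.choose_eq_zero_of_lt (show j < t by omega)]; push_cast; ring
    · omega
  rw [Finset.sum_congr rfl h1, Finset.sum_comm]
  rw [← Finset.sum_range_reflect (fun k => (-4 : ℤ)^(r-k) * (k.choose (r-k) : ℤ) * c k ^ 2)]
  apply Finset.sum_congr rfl
  intro t ht
  simp only [mem_range] at ht
  rw [← Finset.mul_sum]
  have e0 : r + 1 - 1 - t = r - t := by omega
  have e1 : r - (r - t) = t := by omega
  rw [e0, e1]
  have h3 : ∀ j ∈ range (r+1), (r.choose j : ℤ) * (j.choose t : ℤ) * ((r-t).choose j : ℤ) = 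
      (r.choose t : ℤ) * (((r-t).choose j : ℤ) * ((r-t).choose (r-j) : ℤ)) := by
    intro j hj
    simp only [mem_range] at hj
    rcases le_or_gt t j with h | h
    · have h4 := Nat.choose_mul (n := r) (k := j) (s := t) h
      have h5 : (r-t).choose (j-t) = (r-t).choose (r-j) := by
        rw [← Nat.choose_symm (show j - t ≤ r - t by omega)]
        congr 1; omega
      rw [h5] at h4
      have h6 : (r.choose j : ℤ) * (j.choose t : ℤ) = (r.choose t : ℤ) * ((r-t).choose (r-j) : ℤ) := by exact_mod_cast h4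
      rw [h6]; ring
    · rw [Nat.choose_eq_zero_of_lt h, Nat.choose_eq_zero_of_lt (show r - t < r - j by omega)]
      push_cast; ring
  rw [Finset.sum_congr rfl h3, ← Finset.mul_sum, vander]
  have h7 : ((r.choose t : ℤ) * ((r-t+(r-t)).choose r : ℤ)) = c (r-t) * ((r-t).choose t : ℤ) := by
    have e2 : r - t + (r-t) = 2*(r-t) := by ring
    rw [e2]
    unfold c
    have h8 := Nat.choose_mul (n := 2*(r-t)) (k := r) (s := r-t) (by omega)
    have e3 : 2*(r-t) - (r-t) = r - t := by omega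
    have e4 : r - (r-t) = t := by omega
    rw [e3, e4, Nat.choose_symm (show t ≤ r by omega)] at h8
    have h9 : ((2*(r-t)).choose r : ℤ) * (r.choose t : ℤ) = ((2*(r-t)).choose (r-t) : ℤ) * ((r-t).choose t : ℤ) := by exact_mod_cast h8
    rw [← h9]; ring
  calc (-4 : ℤ)^t * c (r-t) * ((r.choose t : ℤ) * ((r-t+(r-t)).choose r : ℤ)) = _ := by rw [h7]
    _ = _ := by ring

/-! ### The alternating sum of connection coefficients -/

lemma alt_choose (j k t : ℕ) : ∑ i ∈ range (j+1), (-1 : ℤ)^i * (j.choose i : ℤ) * ((k+i).choose (j+t) : ℤ) = (-1)^j * (k.choose t : ℤ) := by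
  induction j generalizing k t with
  | zero => simp
  | succ j ih =>
    rw [Finset.sum_range_succ']
    have h1 : ∀ i ∈ range (j+1), (-1 : ℤ)^(i+1) * ((j+1).choose (i+1) : ℤ) * ((k+(i+1)).choose (j+1+t) : ℤ) = 
        (-1 : ℤ)^(i+1) * (j.choose (i+1) : ℤ) * ((k+(i+1)).choose (j+(t+1)) : ℤ) - 
        (-1 : ℤ)^i * (j.choose i : ℤ) * ((k+1+i).choose (j+(t+1)) : ℤ) := by
      intro i hi
      have e1 : j + 1 + t = j + (t+1) := by ring
      have e2 : k + (i+1) = k + 1 + i := by ring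
      rw [e1, e2, ch_pascal j i]; ring
    rw [Finset.sum_congr rfl h1, Finset.sum_sub_distrib, ih (k+1) (t+1)]
    have h2 := ih k (t+1)
    have h3 : ∑ i ∈ range (j+2), (-1 : ℤ)^i * (j.choose i : ℤ) * ((k+i).choose (j+(t+1)) : ℤ) = (-1)^j * (k.choose (t+1) : ℤ) := by
      rw [Finset.sum_range_succ, h2]
      simp
    rw [Finset.sum_range_succ'] at h3
    have e1 : j + 1 + t = j + (t+1) := by ring
    rw [e1]
    have h4 := ch_pascal k t
    simp only [pow_zero, Nat.choose_zero_right] at h3 ⊢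
    push_cast at h3 ⊢
    rw [h4]
    linear_combination h3

lemma alt_d (k j p : ℕ) (h : k + j < p) : ∑ m ∈ range p, (-1 : ℤ)^m * d k j m = (-1)^(k+j) * ((k+j).choose k : ℤ) := by
  rw [Finset.eventually_constant_sum (N := k+j+1)]
  · have e : k + j + 1 = k + (j+1) := by ring
    rw [e, Finset.sum_range_add]
    have h3 : ∑ m ∈ range k, (-1 : ℤ)^m * d k j m = 0 := by
      apply Finset.sum_eq_zero
      intro m hm
      simp only [mem_range] at hm
      rw [d_zero_left hm]; ring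
    rw [h3, zero_add]
    have h4 : ∀ i ∈ range (j+1), (-1 : ℤ)^(k+i) * d k j (k+i) = 
        (-1 : ℤ)^k * ((k+j).choose k : ℤ) * ((-1 : ℤ)^i * (j.choose i : ℤ) * ((k+i).choose (j+0) : ℤ)) := by
      intro i hi
      unfold d
      have h5 := Nat.choose_mul (n := k+j) (k := k+i) (s := k) (by omega)
      have e1 : k + j - k = j := by omega
      have e2 : k + i - k = i := by omega
      rw [e1, e2] at h5
      have h6 : ((k+j).choose (k+i) : ℤ) * ((k+i).choose k : ℤ) = ((k+j).choose k : ℤ) * (j.choose i : ℤ) := by exact_mod_cast h5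
      rw [add_zero]
      calc (-1 : ℤ)^(k+i) * (((k+i).choose k : ℤ) * ((k+i).choose j : ℤ) * ((k+j).choose (k+i) : ℤ)) 
          = (-1 : ℤ)^(k+i) * ((k+i).choose j : ℤ) * (((k+j).choose (k+i) : ℤ) * ((k+i).choose k : ℤ)) := by ring
        _ = _ := by rw [h6, pow_add]; ring
    rw [Finset.sum_congr rfl h4, ← Finset.mul_sum, alt_choose]
    rw [pow_add]; simp; ring
  · intro m hm
    unfold d
    rw [Nat.choose_eq_zero_of_lt (show k + j < m by omega)]; push_cast; ring
  · omega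


/-! ### Congruences modulo `p^2` -/


lemma unit_of_lt {p : ℕ} (hp : p.Prime) {i : ℕ} (h0 : 0 < i) (h : i < p) : IsUnit ((i : ℕ) : ZMod (p^2)) := by
  rw [ZMod.isUnit_iff_coprime]
  apply Nat.Coprime.pow_right
  exact ((Nat.Prime.coprime_iff_not_dvd hp).mpr (fun hd => absurd (Nat.le_of_dvd h0 hd) (by omega))).symm

lemma choose_prod {p : ℕ} (hp : p.Prime) (m : ℕ) (hm : m < p) : 
    (((p-1).choose m : ℕ) : ZMod (p^2)) * (((p+m).choose m : ℕ) : ZMod (p^2)) = (-1)^m := by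
  induction m with
  | zero => simp
  | succ m ih =>
    have ih' := ih (by omega)
    have hu := unit_of_lt hp (i := m+1) (by omega) hm
    have h1 := ch_right (p-1) m
    have h2 := ch_diag (p+m) m
    have h1' : ((m : ZMod (p^2)) + 1) * (((p-1).choose (m+1) : ℕ) : ZMod (p^2)) = (((p : ZMod (p^2)) - 1) - m) * (((p-1).choose m : ℕ) : ZMod (p^2)) := by
      have := congrArg (Int.cast : ℤ → ZMod (p^2)) h1
      push_cast [Nat.cast_sub hp.one_lt.le] at this
      exact this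
    have h2' : ((m : ZMod (p^2)) + 1) * (((p+m+1).choose (m+1) : ℕ) : ZMod (p^2)) = (((p : ZMod (p^2)) + m) + 1) * (((p+m).choose m : ℕ) : ZMod (p^2)) := by
      have := congrArg (Int.cast : ℤ → ZMod (p^2)) h2
      push_cast at this
      exact this
    have hp2 : (p : ZMod (p^2))^2 = 0 := by
      have := ZMod.natCast_self (p^2)
      push_cast at this
      exact this
    have hu2 : IsUnit (((m : ZMod (p^2)) + 1)^2) := by
      have := hu.pow 2
      push_cast at this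
      exact this
    apply hu2.mul_left_cancel
    have e : p + (m+1) = p + m + 1 := by ring
    rw [e]
    calc ((m : ZMod (p^2)) + 1)^2 * ((((p-1).choose (m+1) : ℕ) : ZMod (p^2)) * (((p+m+1).choose (m+1) : ℕ) : ZMod (p^2)))
        = (((m : ZMod (p^2)) + 1) * (((p-1).choose (m+1) : ℕ) : ZMod (p^2))) * (((m : ZMod (p^2)) + 1) * (((p+m+1).choose (m+1) : ℕ) : ZMod (p^2))) := by ring
      _ = ((p : ZMod (p^2))^2 - (m+1)^2) * ((((p-1).choose m : ℕ) : ZMod (p^2)) * (((p+m).choose m : ℕ) : ZMod (p^2))) := by rw [h1', h2']; ring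
      _ = _ := by rw [hp2, ih', pow_succ (-1 : ZMod (p^2)) m]; ring

/-- `p ∣ C(2k,k)` for `p/2 < k < p`. -/
lemma dvd_c {p k : ℕ} (hp : p.Prime) (h1 : k < p) (h2 : p ≤ 2*k) : (p : ℤ) ∣ c k := by
  unfold c
  have := Nat.Prime.dvd_choose hp h1 (show 2*k - k < p by omega) h2
  exact_mod_cast this

lemma cast_zero_of_sq_dvd {p : ℕ} {a : ℤ} (h : (p : ℤ)^2 ∣ a) : (a : ZMod (p^2)) = 0 := by
  rw [ZMod.intCast_zmod_eq_zero_iff_dvd]
  push_cast
  exact h

lemma c_sq_zero {p k : ℕ} (hp : p.Prime) (h1 : k < p) (h2 : p ≤ 2*k) : ((c k : ℤ) : ZMod (p^2))^2 = 0 := by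
  have h := dvd_c hp h1 h2
  have h3 : (p : ℤ)^2 ∣ (c k)^2 := pow_dvd_pow_of_dvd h 2
  have := cast_zero_of_sq_dvd h3
  push_cast at this
  exact this

/-- the summed-over-`m` coefficient -/
def E (p k j : ℕ) : ℤ := ∑ m ∈ range p, (-1 : ℤ)^m * d k j m

lemma dvd_E {p k j : ℕ} (hp : p.Prime) (hk : k < p) (hj : j < p) (h : p ≤ k + j) : (p : ℤ) ∣ E p k j := by
  unfold E
  apply Finset.dvd_sum
  intro m hm
  simp only [mem_range] at hm
  rcases lt_or_ge m k with h1 | h1
  · rw [d_zero_left h1]; simp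
  · rcases lt_or_ge m j with h2 | h2
    · rw [d_zero_right h2]; simp
    · unfold d
      have h3 := Nat.Prime.dvd_choose hp hm (show k + j - m < p by omega) h
      have h4 : (p : ℤ) ∣ ((k+j).choose m : ℤ) := by exact_mod_cast h3
      exact Dvd.dvd.mul_left (Dvd.dvd.mul_left h4 _) _

lemma sum_B (p : ℕ) (hp : p.Prime) (y : ℤ) :
    ((∑ m ∈ range p, (-1 : ℤ)^m * B (cy y) p m : ℤ) : ZMod (p^2)) = 
    ((∑ r ∈ range p, (-y)^r * ∑ k ∈ range (r+1), (r.choose k : ℤ) * c k * c (r-k) : ℤ) : ZMod (p^2)) := by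
  have h1 : ∑ m ∈ range p, (-1 : ℤ)^m * B (cy y) p m = 
      ∑ k ∈ range p, ∑ j ∈ range p, c k * c j * y^(k+j) * E p k j := by
    unfold B E
    have h2 : ∀ m ∈ range p, (-1 : ℤ)^m * ∑ k ∈ range p, ∑ j ∈ range p, d k j m * cy y k * cy y j = 
        ∑ k ∈ range p, ∑ j ∈ range p, c k * c j * y^(k+j) * ((-1 : ℤ)^m * d k j m) := by
      intro m hm
      rw [Finset.mul_sum]
      apply Finset.sum_congr rfl
      intro k hk
      rw [Finset.mul_sum]
      apply Finset.sum_congr rfl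
      intro j hj
      unfold cy c
      rw [pow_add]; ring
    rw [Finset.sum_congr rfl h2, Finset.sum_comm]
    apply Finset.sum_congr rfl
    intro k hk
    rw [Finset.sum_comm]
    apply Finset.sum_congr rfl
    intro j hj
    rw [Finset.mul_sum]
  rw [h1]
  push_cast
  rw [sum_sq_eq p (fun k j => (c k : ZMod (p^2)) * c j * y^(k+j) * E p k j)]
  · apply Finset.sum_congr rfl
    intro r hr
    simp only [mem_range] at hr
    rw [Finset.mul_sum]
    apply Finset.sum_congr rfl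
    intro k hk
    simp only [mem_range] at hk
    have e : k + (r-k) = r := by omega
    have h3 := alt_d k (r-k) p (by omega)
    have h4 : E p k (r-k) = (-1)^r * (r.choose k : ℤ) := by
      unfold E; rw [h3, e]
    rw [h4, e, neg_pow]
    push_cast
    ring
  · intro k hk j hj hkj
    have h5 := dvd_E hp hk hj hkj
    have h6 : (p : ℤ) ∣ c k * c j := by
      rcases le_or_gt p (2*k) with h | h
      · exact Dvd.dvd.mul_right (dvd_c hp hk h) _
      · exact Dvd.dvd.mul_left (dvd_c hp hj (by omega)) _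
    have h7 : (p : ℤ)^2 ∣ c k * c j * y^(k+j) * E p k j := by
      rw [sq]
      exact mul_dvd_mul (Dvd.dvd.mul_right h6 _) h5
    have := cast_zero_of_sq_dvd h7
    push_cast at this
    exact this

lemma T_cast (p : ℕ) (hp : p.Prime) (hodd : Odd p) (x : ℤ) :
    ((T p x : ℤ) : ZMod (p^2)) = 
    ((∑ r ∈ range p, (-(x*(x+1)))^r * ∑ k ∈ range (r+1), (-4 : ℤ)^(r-k) * (k.choose (r-k) : ℤ) * c k ^ 2 : ℤ) : ZMod (p^2)) := by
  set y := x*(x+1) with hy
  have h1 : ((T p x : ℤ) : ZMod (p^2)) = ∑ k ∈ range p, (-1 : ZMod (p^2))^k * (c k : ZMod (p^2))^2 * (y : ZMod (p^2))^k * (1+4*(y : ZMod (p^2)))^k := by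
    unfold T
    push_cast
    symm
    obtain ⟨q, hq⟩ := hodd
    have e : (p-1)/2+1 = q+1 := by omega
    rw [e]
    have e2 : p = (q+1) + q := by omega
    rw [show range p = range ((q+1)+q) by rw [← e2], Finset.sum_range_add]
    have h2 : ∑ k ∈ range q, (-1 : ZMod (p^2))^(q+1+k) * (c (q+1+k) : ZMod (p^2))^2 * (y : ZMod (p^2))^(q+1+k) * (1+4*(y : ZMod (p^2)))^(q+1+k) = 0 := by
      apply Finset.sum_eq_zero
      intro k hk
      simp only [mem_range] at hk
      rw [c_sq_zero hp (by omega) (by omega)]; ring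
    rw [h2, add_zero]
    apply Finset.sum_congr rfl
    intro k hk
    have e3 : (1 + 4 * (y : ZMod (p^2))) = (2*(x : ZMod (p^2)) + 1)^2 := by rw [hy]; push_cast; ring
    have e4 : (y : ZMod (p^2)) = (x : ZMod (p^2))^2 + x := by rw [hy]; push_cast; ring
    rw [e3, e4, ← pow_mul]
    unfold c
    push_cast
    ring
  rw [h1]
  have h2 : ∀ k ∈ range p, (-1 : ZMod (p^2))^k * (c k : ZMod (p^2))^2 * (y : ZMod (p^2))^k * (1+4*(y : ZMod (p^2)))^k = 
      ∑ i ∈ range p, (-1 : ZMod (p^2))^k * (c k : ZMod (p^2))^2 * (k.choose i : ZMod (p^2)) * 4^i * (y : ZMod (p^2))^(k+i) := by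
    intro k hk
    simp only [mem_range] at hk
    symm
    rw [Finset.eventually_constant_sum (N := k+1)]
    · rw [add_comm (1 : ZMod (p^2)), add_pow, Finset.mul_sum]
      apply Finset.sum_congr rfl
      intro i hi
      rw [one_pow, mul_pow, pow_add]; ring
    · intro i hi
      rw [Nat.choose_eq_zero_of_lt (show k < i by omega)]; push_cast; ring
    · omega
  rw [Finset.sum_congr rfl h2]
  rw [sum_sq_eq p (fun k i => (-1 : ZMod (p^2))^k * (c k : ZMod (p^2))^2 * (k.choose i : ZMod (p^2)) * 4^i * (y : ZMod (p^2))^(k+i))]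
  · push_cast
    apply Finset.sum_congr rfl
    intro r hr
    rw [Finset.mul_sum]
    apply Finset.sum_congr rfl
    intro k hk
    simp only [mem_range] at hk
    have e : k + (r-k) = r := by omega
    have h3 : (-(y : ZMod (p^2)))^r * ((-4 : ZMod (p^2))^(r-k) * (k.choose (r-k) : ZMod (p^2)) * (c k : ZMod (p^2))^2) = 
        (-1)^k * ((-1)^(r-k) * (-1)^(r-k)) * (y : ZMod (p^2))^r * (4 : ZMod (p^2))^(r-k) * (k.choose (r-k) : ZMod (p^2)) * (c k : ZMod (p^2))^2 := by
      have h4 : (-(y : ZMod (p^2)))^r = (-1)^k * (-1)^(r-k) * (y : ZMod (p^2))^r := by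
        rw [neg_pow, ← pow_add, e]
      have h5 : (-4 : ZMod (p^2))^(r-k) = (-1)^(r-k) * 4^(r-k) := by
        rw [neg_pow]
      rw [h4, h5]; ring
    have h6 : ((-1 : ZMod (p^2))^(r-k) * (-1)^(r-k)) = 1 := by
      rw [← mul_pow]; simp
    rw [h3, h6, e]; ring
  · intro k hk i hi hki
    rcases lt_or_ge k i with h | h
    · rw [Nat.choose_eq_zero_of_lt h]; push_cast; ring
    · rw [c_sq_zero hp hk (by omega)]; ring

/-- For every integer `x` and every odd prime `p`, `S_p(x) ≡ p T_p(x) (mod p^3)`. -/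
theorem result (x : ℤ) (p : ℕ) (hp : p.Prime) (hp2 : p ≠ 2) : S p x ≡ p * T p x [ZMOD (p : ℤ)^3] := by
  have hodd : Odd p := hp.odd_of_ne_two hp2
  rw [S_eq p hp.pos hodd x]
  set U := ∑ m ∈ range p, B (cy (x*(x+1))) p m * (((p-1).choose m : ℤ) * ((p+m).choose m : ℤ)) with hU
  have h1 : ((U : ℤ) : ZMod (p^2)) = ((T p x : ℤ) : ZMod (p^2)) := by
    rw [T_cast p hp hodd x]
    have h2 := sum_B p hp (x*(x+1))
    have h3 : (∑ r ∈ range p, (-(x*(x+1)))^r * ∑ k ∈ range (r+1), (r.choose k : ℤ) * c k * c (r-k)) = 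
        (∑ r ∈ range p, (-(x*(x+1)))^r * ∑ k ∈ range (r+1), (-4 : ℤ)^(r-k) * (k.choose (r-k) : ℤ) * c k ^ 2) := by
      apply Finset.sum_congr rfl
      intro r hr
      rw [central_identity]
    rw [← h3, ← h2, hU]
    push_cast
    apply Finset.sum_congr rfl
    intro m hm
    simp only [mem_range] at hm
    have h4 := choose_prod hp m hm
    rw [h4]; ring
  have h5 : ((U - T p x : ℤ) : ZMod (p^2)) = 0 := by
    push_cast; rw [h1]; ring
  rw [ZMod.intCast_zmod_eq_zero_iff_dvd] at h5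
  push_cast at h5
  rw [Int.modEq_comm, Int.modEq_iff_dvd]
  have h6 : (p : ℤ)^3 = p * p^2 := by ring
  have h7 : (p : ℤ) * U - p * T p x = p * (U - T p x) := by ring
  rw [h6, h7]
  exact mul_dvd_mul_left _ h5

end Pool.Agent.Results.MP_c45f9b_nt.DelannoyFourthPowers
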